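import Pool.Agent.Helper3.FKG.Deriv

set_option autoImplicit false

open MeasureTheory Set

namespace Pool.Agent.Results.MP_58c014_an.Monotone

/-- The weight `P(x) = exp(-∑ x_j) ∏_{k<j} (x_j - x_k)²`. -/
noncomputable def P {n : ℕ} (x : Fin n → ℝ) : ℝ :=
  Real.exp (-∑ j, x j) * ∏ k, ∏ j ∈ Finset.Ioi k, (x j - x k) ^ 2

/-- `F(t) = ∫_{[0,∞)^n} P(x) ∏ (x_j + t)^{-1/2} dx`. -/
noncomputable def F (n : ℕ) (t : ℝ) : ℝ :=
  ∫ x in Set.Ici (0 : Fin n → ℝ), P x * ∏ j, (x j + t) ^ (-(1 / 2) : ℝ)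

/-- `G(t) = ∫_{[0,∞)^n} P(x) ∏ (x_j + t)^{1/2} dx`. -/
noncomputable def G (n : ℕ) (t : ℝ) : ℝ :=
  ∫ x in Set.Ici (0 : Fin n → ℝ), P x * ∏ j, (x j + t) ^ ((1 / 2) : ℝ)

/-- `H(t) = ∬ P(x) P(y) ∑ (1/(x_j+t) - 1/(y_j+t)) ∏ ((x_j+t)/(y_j+t))^{1/2} dx dy`. -/
noncomputable def H (n : ℕ) (t : ℝ) : ℝ :=
  ∫ x in Set.Ici (0 : Fin n → ℝ), ∫ y in Set.Ici (0 : Fin n → ℝ),
    P x * P y * (∑ j, (1 / (x j + t) - 1 / (y j + t)))
      * ∏ j, ((x j + t) / (y j + t)) ^ ((1 / 2) : ℝ)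

open Pool.Agent.Helper3.FKG

lemma orth_ae (n : ℕ) : (Set.Ici (0 : Fin n → ℝ)) =ᵐ[volume] Orth n := by
  have h := Measure.univ_pi_Ioi_ae_eq_Ici (μ := fun _ : Fin n => (volume : Measure ℝ))
    (f := (0 : Fin n → ℝ))
  exact h.symm

lemma P_eq {n : ℕ} (x : Fin n → ℝ) : P x = (∏ j, Real.exp (-x j)) * Vd x := by
  unfold P Vd
  rw [← Real.exp_sum, Finset.sum_neg_distrib]

lemma bridgeF {n : ℕ} {t : ℝ} (ht : 0 ≤ t) {x : Fin n → ℝ} (hx : x ∈ Orth n) :
    P x * ∏ j, (x j + t) ^ (-(1 / 2) : ℝ) = Q (wF t) x := by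
  rw [mem_Orth] at hx
  rw [P_eq, Q]
  unfold wF
  rw [Finset.prod_mul_distrib]
  have : ∏ j, (x j + t) ^ (-(1 / 2) : ℝ) = ∏ j, (Real.sqrt (x j + t))⁻¹ := by
    refine Finset.prod_congr rfl fun j _ => ?_
    rw [Real.rpow_neg (by linarith [hx j]), Real.sqrt_eq_rpow]
  rw [this]
  ring

lemma bridgeG {n : ℕ} {t : ℝ} {x : Fin n → ℝ} :
    P x * ∏ j, (x j + t) ^ ((1 / 2) : ℝ) = Q (wG t) x := by
  rw [P_eq, Q]
  unfold wG
  rw [Finset.prod_mul_distrib]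
  have : ∏ j, (x j + t) ^ ((1 / 2) : ℝ) = ∏ j, Real.sqrt (x j + t) := by
    refine Finset.prod_congr rfl fun j _ => ?_
    rw [Real.sqrt_eq_rpow]
  rw [this]
  ring

lemma F_eq (n : ℕ) {t : ℝ} (ht : 0 ≤ t) : F n t = ∫ x in Orth n, Q (wF t) x := by
  rw [F, setIntegral_congr_set (orth_ae n)]
  exact setIntegral_congr_fun (measurableSet_Orth n) fun x hx => bridgeF ht hx

lemma G_eq (n : ℕ) (t : ℝ) : G n t = ∫ x in Orth n, Q (wG t) x := by
  rw [G, setIntegral_congr_set (orth_ae n)]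
  exact setIntegral_congr_fun (measurableSet_Orth n) fun x _ => bridgeG

lemma bridgeH {n : ℕ} {t : ℝ} (ht : 0 < t) {x y : Fin n → ℝ} (hx : x ∈ Orth n)
    (hy : y ∈ Orth n) :
    P x * P y * (∑ j, (1 / (x j + t) - 1 / (y j + t)))
      * ∏ j, ((x j + t) / (y j + t)) ^ ((1 / 2) : ℝ)
    = Q (wG t) x * St t x * Q (wF t) y - Q (wG t) x * (Q (wF t) y * St t y) := by
  rw [← bridgeG (x := x), ← bridgeF ht.le hy]
  have h1 : ∑ j, (1 / (x j + t) - 1 / (y j + t)) = St t x - St t y := by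
    unfold St
    rw [← Finset.sum_sub_distrib]
    simp only [one_div]
  rw [mem_Orth] at hx hy
  have h2 : ∏ j, ((x j + t) / (y j + t)) ^ ((1 / 2) : ℝ)
      = (∏ j, (x j + t) ^ ((1 / 2) : ℝ)) * ∏ j, (y j + t) ^ (-(1 / 2) : ℝ) := by
    rw [← Finset.prod_mul_distrib]
    refine Finset.prod_congr rfl fun j _ => ?_
    have a1 := hx j
    have a2 := hy j
    rw [Real.div_rpow (by linarith) (by linarith), Real.rpow_neg (by linarith), div_eq_mul_inv]
  rw [h1, h2]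
  ring

lemma H_eq {n : ℕ} {t : ℝ} (ht : 0 < t) :
    H n t = (∫ x in Orth n, Q (wG t) x * St t x) * (∫ x in Orth n, Q (wF t) x)
      - (∫ x in Orth n, Q (wG t) x) * ∫ x in Orth n, Q (wF t) x * St t x := by
  rw [H, setIntegral_congr_set (orth_ae n)]
  have hin : ∀ x ∈ Orth n, (∫ y in Set.Ici (0 : Fin n → ℝ),
      P x * P y * (∑ j, (1 / (x j + t) - 1 / (y j + t)))
        * ∏ j, ((x j + t) / (y j + t)) ^ ((1 / 2) : ℝ))
      = Q (wG t) x * St t x * (∫ y in Orth n, Q (wF t) y)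
        - Q (wG t) x * ∫ y in Orth n, Q (wF t) y * St t y := by
    intro x hx
    rw [setIntegral_congr_set (orth_ae n),
      setIntegral_congr_fun (measurableSet_Orth n) fun y hy => bridgeH ht hx hy,
      integral_sub ((int_F ht.le).const_mul _) ((int_FS ht).const_mul _),
      integral_const_mul, integral_const_mul]
  rw [setIntegral_congr_fun (measurableSet_Orth n) hin,
    integral_sub ((int_GS ht).mul_const _) ((int_G ht.le).mul_const _),
    integral_mul_const, integral_mul_const]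

lemma int_P_F {n : ℕ} {t : ℝ} (ht : 0 ≤ t) :
    IntegrableOn (fun x : Fin n → ℝ => P x * ∏ j, (x j + t) ^ (-(1 / 2) : ℝ)) (Set.Ici 0) := by
  rw [integrableOn_congr_set_ae (orth_ae n)]
  exact (int_F ht).congr_fun (fun x hx => (bridgeF ht hx).symm) (measurableSet_Orth n)

lemma int_P_G {n : ℕ} {t : ℝ} (ht : 0 ≤ t) :
    IntegrableOn (fun x : Fin n → ℝ => P x * ∏ j, (x j + t) ^ ((1 / 2) : ℝ)) (Set.Ici 0) := by
  rw [integrableOn_congr_set_ae (orth_ae n)]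
  exact (int_G ht).congr_fun (fun x _ => bridgeG.symm) (measurableSet_Orth n)

lemma deriv_FG {n : ℕ} {t : ℝ} (ht : 0 < t) :
    HasDerivAt (fun s => F n s * G n s) (H n t / 2) t := by
  have hF : HasDerivAt (fun s => F n s) (-(1 / 2) * ∫ x in Orth n, Q (wF t) x * St t x) t := by
    refine (hasDerivAt_F (n := n) ht).congr_of_eventuallyEq ?_
    filter_upwards [lt_mem_nhds ht] with s hs
    exact F_eq n hs.le
  have hG : HasDerivAt (fun s => G n s) ((1 / 2) * ∫ x in Orth n, Q (wG t) x * St t x) t := by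
    refine (hasDerivAt_G (n := n) ht).congr_of_eventuallyEq ?_
    filter_upwards [lt_mem_nhds ht] with s hs
    exact G_eq n s
  refine HasDerivAt.congr_deriv (hF.mul hG) ?_
  rw [H_eq ht, F_eq n ht.le, G_eq]
  ring

/-- For every `n ≥ 1` (in particular for every `n ≥ 2`): the integrals defining `F` and `G`
converge for every `t ≥ 0`; the product `t ↦ F(t) G(t)` is strictly decreasing on `[0, ∞)`; for
every `t > 0` its derivative is `H(t) / 2`, where `H` is the double integral of the problem, and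
`H(t) < 0`. -/
theorem result : ∀ n : ℕ, 1 ≤ n →
    (∀ t : ℝ, 0 ≤ t →
      IntegrableOn (fun x : Fin n → ℝ => P x * ∏ j, (x j + t) ^ (-(1 / 2) : ℝ)) (Set.Ici 0) ∧
      IntegrableOn (fun x : Fin n → ℝ => P x * ∏ j, (x j + t) ^ ((1 / 2) : ℝ)) (Set.Ici 0)) ∧
    StrictAntiOn (fun t => F n t * G n t) (Set.Ici 0) ∧
    ∀ t : ℝ, 0 < t →
      HasDerivAt (fun s => F n s * G n s) (H n t / 2) t ∧ H n t < 0 := by
  intro n hn
  refine ⟨fun t ht => ⟨int_P_F ht, int_P_G ht⟩, ?_, fun t ht => ⟨deriv_FG ht, ?_⟩⟩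
  · intro t1 h1 t2 h2 h12
    have h1' : (0 : ℝ) ≤ t1 := h1
    have h2' : (0 : ℝ) ≤ t2 := h2
    show F n t2 * G n t2 < F n t1 * G n t1
    rw [F_eq n h1', F_eq n h2', G_eq, G_eq]
    exact caseOne hn h1' h12
  · rw [H_eq ht]
    have := caseTwo hn ht
    linarith

end Pool.Agent.Results.MP_58c014_an.Monotone
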